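import Pool.Agent.Run7.h260.TW.Fin

/-!
# Unirationality of the images of towers over hypersurfaces and over coverings of complete intersections

A tower of dimension `n` with the bound `s` (`Tower c n Base K s`) is a sequence of dominant rational
maps of finite degree `V = V_0 ⇢ V_1 ⇢ ... ⇢ V_k` between varieties of dimension `n` over `ℂ`. At the step
`V_i ⇢ V_(i + 1)`, of degree `b_i`, the canonical bundle of `V_i` is positive relative to `V_(i + 1)`
(`Positive`): `V_(i + 1)` is the image of `V_i` in a projective space, and for all varieties `Y'`,
`V_i ⇢ Y' ⇢ V_(i + 1)`, of degree `> 1` over `V_(i + 1)` there is a section of `K_(V_i) - m H` with a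
nonzero trace on `Y'`, where `s_i ≤ [V_i : Y'] (m + 1)`; for instance cyclic coverings of prime degree
branched along a sufficiently positive divisor. The bounds are `s_0 = s`, `s_(i + 1) = ⌊s_i / b_i⌋`. The
last variety `V_k`, with the bound `s_k`, is

* a smooth hypersurface of degree `d` in `ℙ^(n + 1)`, where for some `N` one has `d ≥ 7 N + n + 6`,
  `d > (n + 1) N`, `d > c (N + n - 1)` and `s_k < (N + 1) (d - n - N)`; or
* any variety with a generically finite map, of any degree, to a variety in `ℙ^(M + 1)` which is cut out
  by equations of degree at most `D` and has the regular canonical forms `P(x) ω₀` for all forms `P`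
  of degree `m`, for instance a smooth complete intersection of codimension at least two with
  `K = O(m)`; where for some `N` one has `m ≥ 7 N + 4`, `m + M + 2 > (M + 1) N`, `m + 2 ≥ D + N` and
  `s_k < (N + 1) (m + 2 - N)`; or
* any unirational variety, without condition on `s_k`.

Let `V` be the first variety of a tower with the bound `s = r` (and `c = 2`), and let `V ⇢ X` be any
dominant rational map of degree `r`; nothing is assumed about the map (it need not be a quotient by a
group and has no relation to the tower) or about `X`.

The theorem: `X` is unirational if and only if `p_g(X) = 0` (if and only if it is uniruled, or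
`κ(X) = -∞`, or `K_X` is not pseudo-effective). If the bound is `2 r` (and `c = 3`) then this holds if and
only if `X` is not of general type.

The geometric genus of a variety which is given by equations can be computed, and the conditions on the
towers with explicit steps (smoothness, degrees) can be checked. So there is an algorithm which decides
the unirationality of all varieties `X` of any dimension which are given together with such a tower and
a map `V ⇢ X` (this remark is not formalised). The algorithm does not depend on the way in which `X`
is given: the unirationality is decided by `p_g(X)`, although it is not for general varieties of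
dimension `n ≥ 2`.

With the best `N` the bound for the degree `r` is of the order of `b d ^ 2` (`b = b_0 ... b_(k - 1)`) for
towers over hypersurfaces of degree `d`, and of the order of `b m ^ 2` for towers over coverings of
complete intersections. The starting result of this question has towers of
complete intersections in tori and in products of lines over rational varieties (`RationalTowers`); the
hypersurfaces and the coverings of varieties of low degree, and general unirational varieties, as
bases are new here.

The dichotomy for these towers is a theorem of helper260 (`Pool/Agent/Run7/h260/TW/Fin.lean`), who
handed it in for the abundance conjecture as `MP_5ff3c6_ag.ImagesOfTowers`. Proof: if `p_g(X) = 0` then the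
traces of the canonical forms to `X` are zero, and at each step `V_i ⇢ X`
factors through `V_(i + 1)`; at the bottom the theorems on hypersurfaces and on complete intersections
of quadratic degree (`N162/HN`, `N162/GP`) are used. 

`K` and `L` are the function fields of `V` and `X`.
-/

set_option autoImplicit false
set_option linter.overlappingInstances false

open FF Module Pool.Agent.W602.GT
open Pool.Agent.W619.PQ (IsUniruled)
open Pool.Agent.W619.TW (IsUnirational)
open Pool.Agent.R882.Over (GenusZero)
open Pool.Agent.Run7.h260.TW (Tower)

namespace Pool.Agent.Results.MP_1dc56d_ag.TowersOverLowDegree

/-- **Unirationality of the images of towers.** Let `K` be the function field of the first variety `V`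
of a tower of dimension `n ≥ 1` over a smooth hypersurface, a covering of a variety of low degree, or a
unirational variety, and let `V ⇢ X` be a dominant rational map of degree `r`, `L` the function field
of `X`. If the bound of the tower is `r` then `X` is unirational iff `p_g(X) = 0` iff `κ(X) = -∞` iff `K_X`
is not pseudo-effective iff `X` is uniruled. If the bound is `2 r` then these are also equivalent to: `X`
is not of general type. -/
theorem result {n : ℕ} (hn : 1 ≤ n) {K : Type} [Field K] [Algebra ℂ K] [Algebra.EssFiniteType ℂ K]
    (hK : Algebra.trdeg ℂ K = n) (L : Type) [Field L] [Algebra ℂ L] [Algebra L K]
    [IsScalarTower ℂ L K] [FiniteDimensional L K] :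
    (Tower 2 n (fun E _ _ => IsUnirational ℂ E n) K (Module.finrank L K) →
      [GenusZero L n, ¬ KodGe ℂ L n (fun _ => False) 0, ¬ Psef ℂ L n (fun _ => False),
        IsUniruled ℂ L n, IsUnirational ℂ L n].TFAE) ∧
    (Tower 3 n (fun E _ _ => IsUnirational ℂ E n) K (2 * Module.finrank L K) →
      [¬ GeneralType ℂ L n, GenusZero L n, ¬ KodGe ℂ L n (fun _ => False) 0,
        ¬ Psef ℂ L n (fun _ => False), IsUniruled ℂ L n, IsUnirational ℂ L n].TFAE) :=
  ⟨Pool.Agent.Run7.h260.TW.genus_unirational L hn hK le_rfl le_rfl,
    Pool.Agent.Run7.h260.TW.gt_unirational L hn hK le_rfl le_rfl⟩

end Pool.Agent.Results.MP_1dc56d_ag.TowersOverLowDegree
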